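import Mathlib
import Pool.Agent.N233.PE.Cheb

set_option autoImplicit false

/-!
# Primes of the form `64 b ^ 2 + 9 = 8 d ^ 2 + 1` in every sequential random model of the primes

The integers are decided one after the other, no integer with a common factor with `Q` is chosen, and
the conditional probability of choosing `n + 1` (coprime to `Q`) given the past is asymptotic to
`(Q / φ(Q)) / log n`, almost surely.  No independence and no rate is assumed.  In every such model,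
almost surely, for all integer polynomials `f` and all Pell sequences `x_m`, where
`x_m + y_m √(A ^ 2 - 1) = (A + √(A ^ 2 - 1)) ^ m`, at once, the number of the `m < K` with `f (x_m)`
chosen is asymptotic to a constant times `log K`.  The question is about `A = 3`, `f = 8 X ^ 2 + 1`.
-/

open MeasureTheory Filter Polynomial
open scoped Topology

namespace Pool.Agent.Results.MP_f53aaa_nt.SievedModels

/-- the pairs `(x_m, y_m)`: `(1, 0)`, and `(A x + (A ^ 2 - 1) y, x + A y)` after `(x, y)` -/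
def pell (A : ℕ) : ℕ → ℕ × ℕ
  | 0 => (1, 0)
  | m + 1 => (A * (pell A m).1 + (A ^ 2 - 1) * (pell A m).2, (pell A m).1 + A * (pell A m).2)

/-- `x_m` -/
def x (A m : ℕ) : ℕ := (pell A m).1

/-- `y_m` -/
def y (A m : ℕ) : ℕ := (pell A m).2

lemma pell_eq (A m : ℕ) : pell A m = Pool.Agent.N233.PE.py A m := by
  induction m with
  | zero => rfl
  | succ m ih => simp only [pell, Pool.Agent.N233.PE.py, ih, sq]

lemma x_eq (A m : ℕ) : x A m = Pool.Agent.N233.PE.X' A m := by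
  unfold x Pool.Agent.N233.PE.X'
  rw [pell_eq]

lemma y_eq (A m : ℕ) : y A m = Pool.Agent.N233.PE.Y' A m := by
  unfold y Pool.Agent.N233.PE.Y'
  rw [pell_eq]

open Pool.Agent.N233.PE

/-- the common values -/
lemma common (n : ℤ) : (∃ b d : ℤ, n = 64 * b ^ 2 + 9 ∧ n = 8 * d ^ 2 + 1) ↔ ∃ m, n = 8 * (x 3 m : ℤ) ^ 2 + 1 := by
  constructor
  · rintro ⟨b, d, h1, h2⟩
    have h3 : d.natAbs ^ 2 = 8 * b.natAbs ^ 2 + 1 := by
      have : ((d.natAbs : ℤ)) ^ 2 = 8 * (b.natAbs : ℤ) ^ 2 + 1 := by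
        rw [Int.natAbs_sq, Int.natAbs_sq]
        linarith
      exact_mod_cast this
    obtain ⟨m, hm, _⟩ := sol8 _ _ h3
    refine ⟨m, ?_⟩
    rw [x_eq, ← hm, Int.natAbs_sq]
    exact h2
  · rintro ⟨m, hm⟩
    have h := XY_eq (A := 3) (by norm_num) m
    refine ⟨Y' 3 m, x 3 m, ?_, hm⟩
    rw [hm, x_eq]
    push_cast at h
    linarith

/-- **Polynomial values at the solutions of Pell equations in sieved random models.**  Let `S n` be the
event that `n` is chosen, adapted to a filtration `ℱ`, let `Q ≥ 1`, let no integer which is not coprime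
to `Q` be chosen, and let the conditional probability of `S (n + 1)` given `ℱ n`, times `log n`, tend
to `Q / φ(Q)` along the `n` with `n + 1` coprime to `Q`, almost surely.  For `A ≥ 2` let
`x_m + y_m √(A ^ 2 - 1) = (A + √(A ^ 2 - 1)) ^ m`.
(1) The integers which are both of the form `64 b ^ 2 + 9` and of the form `8 d ^ 2 + 1` are the
`8 x_m ^ 2 + 1` with `A = 3`.
(2) For all `A ≥ 2` and all integer polynomials `f` of positive degree with positive leading
coefficient the `m` with `f (x_m)` coprime to `Q` have a density, which is positive iff there is such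
an `m`.
(3) Almost surely, for all these `A` and `f` at once, if `a` is that density, the number of the `m < K`
with `f (x_m)` chosen is `((Q / φ(Q)) a / (deg f · log (A + √(A ^ 2 - 1))) + o(1)) log K`.
(4) If `73` does not divide `Q` then almost surely infinitely many chosen integers are both of the form
`64 b ^ 2 + 9` and of the form `8 d ^ 2 + 1`. -/
theorem result {Ω : Type} [mΩ : MeasurableSpace Ω] (μ : Measure Ω) [IsProbabilityMeasure μ]
    (ℱ : Filtration ℕ mΩ) (S : ℕ → Set Ω) (hS : ∀ n, MeasurableSet[ℱ n] (S n))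
    (Q : ℕ) (hQ : 0 < Q) (hcop : ∀ n, ¬ Nat.Coprime n Q → S n = ∅)
    (hd : ∀ᵐ ω ∂μ, Tendsto (fun n : ℕ =>
      (μ[(S (n + 1)).indicator (fun _ => (1 : ℝ)) | ℱ n]) ω * Real.log n)
      (atTop ⊓ 𝓟 {n : ℕ | Nat.Coprime (n + 1) Q}) (𝓝 ((Q : ℝ) / Nat.totient Q))) :
    (∀ n : ℤ, (∃ b d : ℤ, n = 64 * b ^ 2 + 9 ∧ n = 8 * d ^ 2 + 1) ↔ ∃ m, n = 8 * (x 3 m : ℤ) ^ 2 + 1) ∧
    (∀ A m : ℕ, 2 ≤ A → (x A m : ℝ) + y A m * √((A : ℝ) ^ 2 - 1) = (A + √((A : ℝ) ^ 2 - 1)) ^ m) ∧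
    (∀ (A : ℕ) (f : ℤ[X]), 2 ≤ A → 0 < f.natDegree → 0 < f.leadingCoeff → ∃ a : ℝ,
      Tendsto (fun K : ℕ => ({m : ℕ | m < K ∧ IsCoprime (f.eval (x A m : ℤ)) (Q : ℤ)}.ncard : ℝ) / K) atTop (𝓝 a) ∧
      (0 < a ↔ ∃ m, IsCoprime (f.eval (x A m : ℤ)) (Q : ℤ))) ∧
    (∀ᵐ ω ∂μ, ∀ (A : ℕ) (f : ℤ[X]), 2 ≤ A → 0 < f.natDegree → 0 < f.leadingCoeff → ∀ a : ℝ,
      Tendsto (fun K : ℕ => ({m : ℕ | m < K ∧ IsCoprime (f.eval (x A m : ℤ)) (Q : ℤ)}.ncard : ℝ) / K) atTop (𝓝 a) →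
      Tendsto (fun K : ℕ => ({m : ℕ | m < K ∧ ω ∈ S (f.eval (x A m : ℤ)).toNat}.ncard : ℝ) / Real.log K) atTop
        (𝓝 ((Q : ℝ) / Nat.totient Q * a / (f.natDegree * Real.log (A + √((A : ℝ) ^ 2 - 1)))))) ∧
    (¬ 73 ∣ Q → ∀ᵐ ω ∂μ, {n : ℕ | ω ∈ S n ∧ ∃ b d : ℤ, (n : ℤ) = 64 * b ^ 2 + 9 ∧ (n : ℤ) = 8 * d ^ 2 + 1}.Infinite) := by
  classical
  refine ⟨common, fun A m hA => by rw [x_eq, y_eq]; exact XY_pow hA m, ?_⟩
  simp only [common]
  simp only [x_eq]
  have hprof := Pool.Agent.R528.RM.dens_profile (μ := μ) hS Q hQ hcop hd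
  have hall := poly_all (μ := μ) hS Q hQ hcop hprof
  have hdens : ∀ (A : ℕ) (f : ℤ[X]), 2 ≤ A → 0 < f.natDegree → 0 < f.leadingCoeff → ∃ a : ℝ,
      Tendsto (fun K : ℕ => ({m : ℕ | m < K ∧ IsCoprime (f.eval (X' A m : ℤ)) (Q : ℤ)}.ncard : ℝ) / K) atTop (𝓝 a) ∧
      (0 < a ↔ ∃ m, IsCoprime (f.eval (X' A m : ℤ)) (Q : ℤ)) := by
    intro A f hA _ _
    obtain ⟨W, hW, hp⟩ := X_periodic hA Q hQ f
    refine ⟨_, dens_p (fun m => IsCoprime (f.eval (X' A m : ℤ)) (Q : ℤ)) W hW hp, ?_⟩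
    have hWr : (0 : ℝ) < W := by exact_mod_cast hW
    constructor
    · intro h
      have h1 : (0 : ℝ) < (Nat.count (fun m => IsCoprime (f.eval (X' A m : ℤ)) (Q : ℤ)) W : ℝ) := by
        by_contra hc
        push Not at hc
        have := div_nonpos_of_nonpos_of_nonneg hc hWr.le
        linarith
      have h2 : 0 < Nat.count (fun m => IsCoprime (f.eval (X' A m : ℤ)) (Q : ℤ)) W := by exact_mod_cast h1
      rw [Nat.count_eq_card_filter_range, Finset.card_pos] at h2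
      obtain ⟨m, hm⟩ := h2
      exact ⟨m, (Finset.mem_filter.1 hm).2⟩
    · rintro ⟨m, hm⟩
      refine div_pos ?_ hWr
      have h1 : 0 < Nat.count (fun m => IsCoprime (f.eval (X' A m : ℤ)) (Q : ℤ)) W := by
        rw [Nat.count_eq_card_filter_range]
        refine Finset.card_pos.2 ⟨m % W, Finset.mem_filter.2 ⟨Finset.mem_range.2 (Nat.mod_lt _ hW), ?_⟩⟩
        have := hp.map_mod_nat m
        exact this ▸ hm
      exact_mod_cast h1
  refine ⟨hdens, hall, ?_⟩
  intro h73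
  set f : ℤ[X] := C 8 * X ^ 2 + C 1 with hf
  have hfe : ∀ z : ℤ, f.eval z = 8 * z ^ 2 + 1 := by
    intro z
    simp [hf]
  have hdeg : f.natDegree = 2 := by
    rw [hf]
    compute_degree!
  have hlead : f.leadingCoeff = 8 := by
    rw [Polynomial.leadingCoeff, hdeg, hf]
    rw [Polynomial.coeff_add, Polynomial.coeff_C_mul, Polynomial.coeff_X_pow, Polynomial.coeff_C]
    norm_num
  have hfd : 0 < f.natDegree := by rw [hdeg]; norm_num
  have hfl : 0 < f.leadingCoeff := by rw [hlead]; norm_num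
  obtain ⟨a, ha, ha2⟩ := hdens 3 f (by norm_num) hfd hfl
  have hapos : 0 < a := by
    refine ha2.2 ⟨1, ?_⟩
    rw [hfe]
    have e : (X' 3 1 : ℤ) = 3 := by rfl
    rw [e]
    have h1 : IsCoprime (73 : ℤ) (Q : ℤ) := by
      have h2 : Nat.Coprime 73 Q := (Nat.Prime.coprime_iff_not_dvd (by norm_num)).2 h73
      exact_mod_cast Nat.isCoprime_iff_coprime.2 h2
    norm_num
    exact h1
  filter_upwards [hall] with ω hω hfin
  have h1 := hω 3 f (by norm_num) hfd hfl a ha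
  have hα := Real.log_pos (alpha_gt (A := 3) (by norm_num))
  have hc : 0 < (Q : ℝ) / Nat.totient Q := div_pos (by exact_mod_cast hQ) (by exact_mod_cast Nat.totient_pos.2 hQ)
  have hinj : Function.Injective (fun m => (f.eval (X' 3 m : ℤ)).toNat) := by
    intro k l hkl
    simp only [hfe] at hkl
    have h2 : 8 * (X' 3 k : ℤ) ^ 2 + 1 = 8 * (X' 3 l : ℤ) ^ 2 + 1 := by
      have a1 : (0 : ℤ) ≤ 8 * (X' 3 k : ℤ) ^ 2 + 1 := by positivity
      have a2 : (0 : ℤ) ≤ 8 * (X' 3 l : ℤ) ^ 2 + 1 := by positivity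
      omega
    have h3 : (X' 3 k : ℤ) ^ 2 = (X' 3 l : ℤ) ^ 2 := by linarith
    have h4 : X' 3 k ^ 2 = X' 3 l ^ 2 := by exact_mod_cast h3
    have h5 : X' 3 k = X' 3 l := Nat.pow_left_injective (by norm_num : (2 : ℕ) ≠ 0) h4
    exact (strictMono_nat_of_lt_succ (X_lt (A := 3) (by norm_num))).injective h5
  have hfin2 : {m : ℕ | ω ∈ S (f.eval (X' 3 m : ℤ)).toNat}.Finite := by
    refine Set.Finite.of_finite_image (f := fun m => (f.eval (X' 3 m : ℤ)).toNat) (hfin.subset ?_) hinj.injOn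
    rintro _ ⟨m, hm, rfl⟩
    refine ⟨hm, m, ?_⟩
    show (((f.eval (X' 3 m : ℤ)).toNat : ℕ) : ℤ) = _
    rw [hfe, Int.toNat_of_nonneg (by positivity)]
  have h0 : Tendsto (fun K : ℕ => ({m : ℕ | m < K ∧ ω ∈ S (f.eval (X' 3 m : ℤ)).toNat}.ncard : ℝ) / Real.log K)
      atTop (𝓝 0) := by
    have k1 : Tendsto (fun K : ℕ => ({m : ℕ | ω ∈ S (f.eval (X' 3 m : ℤ)).toNat}.ncard : ℝ) / Real.log K) atTop (𝓝 0) :=
      Tendsto.div_atTop tendsto_const_nhds logN_top
    refine squeeze_zero' ?_ ?_ k1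
    · filter_upwards [logN_top.eventually_gt_atTop 0] with K hK
      positivity
    · filter_upwards [logN_top.eventually_gt_atTop 0] with K hK
      apply div_le_div_of_nonneg_right _ hK.le
      have hsub : {m : ℕ | m < K ∧ ω ∈ S (f.eval (X' 3 m : ℤ)).toNat} ⊆ {m : ℕ | ω ∈ S (f.eval (X' 3 m : ℤ)).toNat} :=
        fun k hk => hk.2
      exact_mod_cast Set.ncard_le_ncard hsub hfin2
  have h4 := tendsto_nhds_unique h1 h0
  have h5 : 0 < (Q : ℝ) / Nat.totient Q * a / (f.natDegree * Real.log ((3 : ℕ) + √(((3 : ℕ) : ℝ) ^ 2 - 1))) := by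
    have : (0 : ℝ) < f.natDegree := by exact_mod_cast hfd
    positivity
  linarith

end Pool.Agent.Results.MP_f53aaa_nt.SievedModels
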