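import Pool.Agent.N449.SR.Final3

/-!
# Sparse factors of the numbers `64 b ^ 2 + 9 = 8 d ^ 2 + 1`

An admissible prime is a prime of the form `N = 64 b ^ 2 + 9 = 8 d ^ 2 + 1`. We prove a theorem about the composite
numbers of this form: if `N = x y` with integers `|x|, |y| > 1`, then `x` and `y` cannot both be sums of few Pell numbers
`P_i = 0, 1, 2, 5, 12, 29, …` (`P_(k+2) = 2 P_(k+1) + P_k`), or of few short blocks of Pell numbers. If
`x = ∑_{i ∈ S} (u_i P_i + u'_i P_(i+1))`, `y = ∑_{j ∈ T} (v_j P_j + v'_j P_(j+1))` with `|S| = s`, `|T| = t` and arbitrary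
integer coefficients, then
`d ^ 2 ≤ (72 + 4 (∑ (|u_i| + 3 |u'_i|)) (∑ (|v_j| + 3 |v'_j|))) ^ ((8 (t + 1)) ^ (s + 1))`.

Proof. With `ω = 1 + √2` and `d = (ω ^ (2 m) + ω ^ (-2 m)) / 2` we have `N = (2 w + 1) (1 + 2 / w)`, `w = ω ^ (4 m)`. After
multiplication by `8` a factorization of `N` with few digits comes, for a suitable natural number `q`, from a factorization
of `8 (2 w X ^ q + 1) (X ^ q + 2 / w)` into two Laurent polynomials over `ℤ[√2]` which are antisymmetric under `X → 1 / X`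
and conjugation. The polynomial `2 w X ^ q + 1` is irreducible over `ℚ(√2)` for all `q`, and the antisymmetry exchanges the
two irreducible factors, so one of the Laurent polynomials is a constant. The details are in `Pool/Agent/N449/SR`.
-/

set_option autoImplicit false

namespace Pool.Agent.Results.MP_f53aaa_nt.SparseFactors

/-- The Pell numbers. -/
def P : ℕ → ℤ
  | 0 => 0
  | 1 => 1
  | k + 2 => 2 * P (k + 1) + P k

theorem P_eq (i : ℕ) : P i = Pool.Agent.N449.SQ.U 2 i := by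
  induction i using Nat.strong_induction_on with
  | _ i ih =>
    match i with
    | 0 => rfl
    | 1 => rfl
    | i + 2 => rw [P, Pool.Agent.N449.SQ.U, ih (i + 1) (by omega), ih i (by omega)]

/-- **Sparse factors of `64 b ^ 2 + 9 = 8 d ^ 2 + 1`.** -/
theorem result (b d x y : ℤ) (hbd : 64 * b ^ 2 + 9 = 8 * d ^ 2 + 1) (hxy : x * y = 8 * d ^ 2 + 1)
    (hx1 : 1 < |x|) (hy1 : 1 < |y|) (S T : Finset ℕ) (u u' v v' : ℕ → ℤ)
    (hx : x = ∑ i ∈ S, (u i * P i + u' i * P (i + 1)))
    (hy : y = ∑ j ∈ T, (v j * P j + v' j * P (j + 1))) :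
    d ^ 2 ≤ (72 + 4 * (∑ i ∈ S, (|u i| + 3 * |u' i|)) *
      (∑ j ∈ T, (|v j| + 3 * |v' j|))) ^ ((8 * (T.card + 1)) ^ (S.card + 1)) :=
  Pool.Agent.N449.SR.final3 b d x y hbd hxy hx1 hy1 S T u u' v v'
    (by simpa only [P_eq] using hx) (by simpa only [P_eq] using hy)

end Pool.Agent.Results.MP_f53aaa_nt.SparseFactors
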